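import Pool.Agent.H41.AV.Quant
import Pool.Agent.H154.AV.Conc
import Pool.Agent.H356.AV.MGF
import Pool.Agent.H581.AV.QUAD
import Pool.Agent.H632.AV.Mom
import Pool.Agent.H895.AV.LIP2
import Pool.Agent.H99.AV.Pair
import Pool.Agent.H246.AV.LIP
import Pool.Agent.H79.AV.Mean

set_option autoImplicit false

/-!
MP_ce3cb6_co: for every sufficiently large `n`, every `n × n` array in which each symbol occurs at
most `n - n ^ (12 / 13)` times is avoided by some Latin square.
-/

namespace Pool.Agent.Results.MP_ce3cb6_co.PowerSavingAvoiding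

open Finset Pool.Agent.H41.AV

/-- There is `n₀` such that for all `n ≥ n₀` and every `n × n` array `A` with entries in
`{0, ..., n}` in which every non-zero symbol occurs in at most `n - n ^ (12 / 13)` cells, there
is a Latin square `L` of order `n` which avoids `A` (the entry `L i j` of `Fin n` stands for the
symbol `L i j + 1`). -/
theorem result : ∃ n₀ : ℕ, ∀ n : ℕ, n₀ ≤ n →
    ∀ A : Fin n → Fin n → Fin (n + 1),
    (∀ s : Fin (n + 1), s ≠ 0 →
      ((Finset.univ.filter fun p : Fin n × Fin n => A p.1 p.2 = s).card : ℝ) ≤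
        (n : ℝ) - (n : ℝ) ^ (12 / 13 : ℝ)) →
    ∃ L : Fin n → Fin n → Fin n, (∀ i, Function.Injective (L i)) ∧
      (∀ j, Function.Injective (fun i => L i j)) ∧
      ∀ i j, (A i j).val ≠ (L i j).val + 1 := by
  obtain ⟨n₀, h⟩ := Pool.Agent.H41.AVQ.main' (Pool.Agent.H154.AV.conc Pool.Agent.H356.AV.mgf)
    (Pool.Agent.H79.AV.mean (Pool.Agent.H632.AVMOM.mom Pool.Agent.H99.AV.pair))
    Pool.Agent.H246.AV.lip Pool.Agent.H895.AV.lip2 Pool.Agent.H581.AV.quad
  refine ⟨max n₀ 1, fun n hn A hA => ?_⟩
  have hn1 : 1 ≤ n := (le_max_right n₀ 1).trans hn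
  haveI : NeZero n := ⟨by omega⟩
  let A' : Fin n → Fin n → Option (Fin n) := fun i j =>
    if h : A i j = 0 then none else some ((A i j).pred h)
  have key : ∀ i j x, A' i j = some x ↔ A i j = x.succ := by
    intro i j x
    show (if h : A i j = 0 then none else some ((A i j).pred h)) = some x ↔ _
    by_cases h0 : A i j = 0
    · rw [dif_pos h0, h0]
      constructor
      · intro e
        simp at e
      · intro e
        exact absurd e.symm (Fin.succ_ne_zero x)
    · rw [dif_neg h0]
      constructor
      · intro e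
        have e1 := Option.some.inj e
        rw [← e1, Fin.succ_pred]
      · intro e
        congr 1
        apply Fin.succ_injective
        rw [Fin.succ_pred]
        exact e
  obtain ⟨L, h1, h2, h3⟩ := h (Fin n) A' (by
    rw [Fintype.card_fin]
    exact (le_max_left _ _).trans hn) (fun x => by
    have h4 : cells A' x = univ.filter fun p : Fin n × Fin n => A p.1 p.2 = x.succ := by
      unfold cells
      ext p
      simp only [mem_filter, mem_univ, true_and]
      exact key _ _ _
    rw [h4, Fintype.card_fin]
    exact hA _ (Fin.succ_ne_zero x))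
  refine ⟨L, h1, h2, fun i j e => h3 i j ((key i j _).2 (Fin.ext ?_))⟩
  rw [e, Fin.val_succ]

end Pool.Agent.Results.MP_ce3cb6_co.PowerSavingAvoiding
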